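import Pool.Agent.SGL.StmtsS

set_option autoImplicit false

namespace Pool.Agent.SGL.H34

open Pool.Agent.SGE Pool.Agent.SGP Pool.Agent.SGY Pool.Agent.SGD Pool.Agent.SGL

lemma between (Lo Up Z : Set ℝ) (hL : Lo.Finite) (hU : Up.Finite) (hZ : Z.Finite)
    (hne : Lo.Nonempty) (h : ∀ l ∈ Lo, ∀ u ∈ Up, l < u) :
    ∃ ξ : ℝ, ξ ∉ Z ∧ (∀ l ∈ Lo, l < ξ) ∧ ∀ u ∈ Up, ξ < u := by
  obtain ⟨m, hm, hmax⟩ := Set.exists_max_image Lo id hL hne
  have hu : ∃ u, m < u ∧ ∀ v ∈ Up, u ≤ v := by
    rcases Up.eq_empty_or_nonempty with he | hn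
    · refine ⟨m + 1, by linarith, ?_⟩
      intro v hv
      rw [he] at hv
      exact absurd hv (Set.notMem_empty v)
    · obtain ⟨u, hu, hmin⟩ := Set.exists_min_image Up id hU hn
      exact ⟨u, h m hm u hu, hmin⟩
  obtain ⟨u, hmu, hul⟩ := hu
  obtain ⟨ξ, hξ, hξZ⟩ := (Set.Ioo_infinite hmu).exists_notMem_finite hZ
  refine ⟨ξ, hξZ, ?_, ?_⟩
  · intro l hl
    exact lt_of_le_of_lt (hmax l hl) hξ.1
  · intro v hv
    exact lt_of_lt_of_le hξ.2 (hul v hv)

theorem xsl : XslStmt := by
  intro V x T A Y B p L Z M lq hT hp hTA hY hAB hlq hZ hpM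
  have hTall := hT
  rw [hTA, List.pairwise_append] at hT
  obtain ⟨hA, hYB, hAYB⟩ := hT
  rw [List.pairwise_append] at hYB
  obtain ⟨hYY, hBB, hYB⟩ := hYB
  have hpT : ∃ T', T = p :: T' := by
    cases T with
    | nil => simp at hp
    | cons a l =>
      simp only [List.head?_cons, Option.some.injEq] at hp
      exact ⟨l, by rw [hp]⟩
  obtain ⟨T', hT'⟩ := hpT
  -- the first element is before the last one
  have hfl : ∀ q, lq → T.getLast? = some q → x p < x q := by
    intro q hl hq
    have h2 := hlq hl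
    rw [hT'] at hTall h2 hq
    rw [List.pairwise_cons] at hTall
    apply hTall.1
    have hne : T' ≠ [] := by
      intro h0
      rw [h0] at h2
      simp at h2
    obtain ⟨b, l, hbl⟩ := List.exists_cons_of_ne_nil hne
    rw [hbl] at hq ⊢
    rw [List.getLast?_cons_cons] at hq
    exact List.mem_of_getLast? hq
  -- `A` before the last element
  have hAl : ∀ q, Y ≠ [] → T.getLast? = some q → ∀ a ∈ A, x a < x q := by
    intro q hY0 hq a ha
    apply hAYB a ha
    have hne : Y ++ B ≠ [] := by
      intro h0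
      exact hY0 (List.append_eq_nil_iff.1 h0).1
    rw [hTA, List.getLast?_append_of_ne_nil _ hne] at hq
    exact List.mem_of_getLast? hq
  -- the first element is before `B`
  have hpB : Y ≠ [] → ∀ b ∈ B, x p < x b := by
    intro hY0 b hb
    have hpin : p ∈ A ∨ p ∈ Y := by
      cases A with
      | nil =>
        right
        cases Y with
        | nil => exact absurd rfl hY0
        | cons y ys =>
          rw [hT'] at hTA
          simp only [List.nil_append, List.cons_append, List.cons.injEq] at hTA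
          rw [hTA.1]
          exact List.mem_cons_self
      | cons a as =>
        left
        rw [hT'] at hTA
        simp only [List.cons_append, List.cons.injEq] at hTA
        rw [hTA.1]
        exact List.mem_cons_self
    rcases hpin with h | h
    · exact hAYB p h b (List.mem_append_right _ hb)
    · exact hYB p h b hb
  obtain ⟨ξ, hξZ, hlo, hup⟩ := between
    {r | r = x p ∨ (Y ≠ [] ∧ ∃ a ∈ A, r = x a)}
    {r | (lq ∧ ∃ q, T.getLast? = some q ∧ r = x q) ∨ (Y ≠ [] ∧ ∃ b ∈ B, r = x b) ∨
      ((A = [] ∨ Y = []) ∧ r = M)} Z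
    (by
      apply Set.Finite.subset ((Set.finite_singleton (x p)).union
        ((List.finite_toSet A).image x))
      rintro r (h | ⟨-, a, ha, h⟩)
      · left
        exact h
      · right
        exact ⟨a, ha, h.symm⟩)
    (by
      apply Set.Finite.subset ((Set.finite_singleton M).union
        (((List.finite_toSet T).image x).union ((List.finite_toSet B).image x)))
      rintro r (⟨-, q, hq, h⟩ | ⟨-, b, hb, h⟩ | ⟨-, h⟩)
      · right
        left
        exact ⟨q, List.mem_of_getLast? hq, h.symm⟩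
      · right
        right
        exact ⟨b, hb, h.symm⟩
      · left
        exact h)
    hZ ⟨x p, Or.inl rfl⟩
    (by
      rintro l (h | ⟨hY0, a, ha, h⟩) u (⟨hl, q, hq, h'⟩ | ⟨hY1, b, hb, h'⟩ | ⟨hAY, h'⟩)
      · rw [h, h']
        exact hfl q hl hq
      · rw [h, h']
        exact hpB hY1 b hb
      · rw [h, h']
        exact hpM
      · rw [h, h']
        exact hAl q hY0 hq a ha
      · rw [h, h']
        exact hAYB a ha b (List.mem_append_right _ hb)
      · exfalso
        rcases hAY with h0 | h0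
        · rw [h0] at ha
          exact absurd ha List.not_mem_nil
        · exact hY0 h0)
  have hcon : ∀ u w, Con T u w → u ∈ T ∧ w ∈ T ∧ x u < x w := by
    rintro u w ⟨P, Q, hPQ⟩
    rw [hPQ] at hTall ⊢
    rw [List.pairwise_append] at hTall
    refine ⟨by simp, by simp, ?_⟩
    exact (List.pairwise_cons.1 hTall.2.1).1 w List.mem_cons_self
  have hmemT : ∀ u, u ∈ T → u ∈ A ∨ u ∈ Y ∨ u ∈ B := by
    intro u hu
    rw [hTA, List.mem_append, List.mem_append] at hu
    exact hu
  have hnotA : ∀ u ∈ A, u ∉ L := fun u hu => hAB u (List.mem_append_left _ hu)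
  have hnotB : ∀ u ∈ B, u ∉ L := fun u hu => hAB u (List.mem_append_right _ hu)
  refine ⟨ξ, hξZ, hlo _ (Or.inl rfl), ?_, ?_, ?_, ?_⟩
  · intro q hl hq
    exact hup _ (Or.inl ⟨hl, q, hq, rfl⟩)
  · intro hAY
    exact hup _ (Or.inr (Or.inr ⟨hAY, rfl⟩))
  · intro u w hc hu hw
    obtain ⟨huT, hwT, hlt⟩ := hcon u w hc
    have hwY : w ∈ Y := by
      rcases hmemT w hwT with h | h | h
      · exact absurd hw (hnotA w h)
      · exact h
      · exact absurd hw (hnotB w h)
    have hY0 : Y ≠ [] := List.ne_nil_of_mem hwY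
    rcases hmemT u huT with h | h | h
    · exact hlo _ (Or.inr ⟨hY0, u, h, rfl⟩)
    · exact absurd (hY u h) hu
    · exact absurd (hYB w hwY u h) (not_lt.2 hlt.le)
  · intro u w hc hu hw
    obtain ⟨huT, hwT, hlt⟩ := hcon u w hc
    have huY : u ∈ Y := by
      rcases hmemT u huT with h | h | h
      · exact absurd hu (hnotA u h)
      · exact h
      · exact absurd hu (hnotB u h)
    have hY0 : Y ≠ [] := List.ne_nil_of_mem huY
    rcases hmemT w hwT with h | h | h
    · exact absurd (hAYB w h u (List.mem_append_left _ huY)) (not_lt.2 hlt.le)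
    · exact absurd (hY w h) hw
    · exact hup _ (Or.inr (Or.inl ⟨hY0, w, h, rfl⟩))

end Pool.Agent.SGL.H34
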