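import Pool.Agent.SGL.StmtsA

set_option autoImplicit false

namespace Pool.Agent.SGL.H34

open Pool.Agent.SGE Pool.Agent.SGP Pool.Agent.SGY Pool.Agent.SGD Pool.Agent.SGL

theorem mxt : MxtStmt := by
  intro n G hG
  have hfin : {T : SimpleGraph (Fin n) | ∃ f, Draw T f}.Finite := Set.toFinite _
  obtain ⟨T, hGT, hT⟩ := hfin.exists_le_maximal hG
  refine ⟨T, ⟨hT.1, ?_⟩, hGT⟩
  intro T' hle hT'
  exact le_antisymm (hT.2 hT' hle) hle

end Pool.Agent.SGL.H34
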